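import Mathlib

/-!
# G9b: the numerical conditions
-/

open Filter Topology

set_option linter.unusedSectionVars false

namespace Pool.Agent.Stirring.TN

theorem tendsto_log_nat : Tendsto (fun L : ℕ => Real.log (L : ℝ)) atTop atTop :=
  Real.tendsto_log_atTop.comp tendsto_natCast_atTop_atTop

/-- The size conditions on `L`. -/
theorem klaw_par (d n : ℕ) (K0 K1 K2 ε : ℝ) (hε : 0 < ε) : ∀ᶠ L : ℕ in atTop,
    64 ≤ L ∧ K0 ≤ Real.log L ∧ Real.log L ^ n ≤ ε * L ∧ K1 / Real.log L ≤ ε / 2 ∧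
      K2 * Real.sqrt (d / Real.log L) ≤ ε / 2 := by
  have h1 := eventually_ge_atTop 64
  have h2 := tendsto_log_nat.eventually_ge_atTop K0
  have h3 : ∀ᶠ L : ℕ in atTop, Real.log L ^ n ≤ ε * L := by
    have h4 := (Real.isLittleO_pow_log_id_atTop (n := n)).bound hε
    have h5 := tendsto_natCast_atTop_atTop (R := ℝ) |>.eventually h4
    filter_upwards [h5] with L hL
    have h6 : ‖(id (L : ℝ))‖ = L := by simp
    rw [h6] at hL
    exact (le_abs_self _).trans hL
  have h4 : ∀ᶠ L : ℕ in atTop, K1 / Real.log L ≤ ε / 2 := by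
    have h5 : Tendsto (fun L : ℕ => K1 / Real.log L) atTop (𝓝 0) :=
      tendsto_const_nhds.div_atTop tendsto_log_nat
    filter_upwards [h5.eventually_lt_const (by linarith : (0 : ℝ) < ε / 2)] with L hL
    exact hL.le
  have h5 : ∀ᶠ L : ℕ in atTop, K2 * Real.sqrt (d / Real.log L) ≤ ε / 2 := by
    have h6 : Tendsto (fun L : ℕ => (d : ℝ) / Real.log L) atTop (𝓝 0) :=
      tendsto_const_nhds.div_atTop tendsto_log_nat
    have h7 : Tendsto (fun L : ℕ => K2 * Real.sqrt ((d : ℝ) / Real.log L)) atTop (𝓝 0) := by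
      have h8 := (Real.continuous_sqrt.tendsto 0).comp h6
      rw [Real.sqrt_zero] at h8
      have h9 := h8.const_mul K2
      rw [mul_zero] at h9
      exact h9
    filter_upwards [h7.eventually_lt_const (by linarith : (0 : ℝ) < ε / 2)] with L hL
    exact hL.le
  filter_upwards [h1, h2, h3, h4, h5] with L a1 a2 a3 a4 a5
  exact ⟨a1, a2, a3, a4, a5⟩

/-- The cost of the insertion. -/
theorem cost_num {d A B : ℕ} {x t b : ℝ} (hx : 1 ≤ x) (hb : 0 ≤ b) (hbA : b ≤ x ^ A)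
    (ht : x ^ (B + 2 * A * (d + 1) + 2) ≤ t) :
    b * b ^ d * Real.sqrt (d * x / t) ≤ Real.sqrt (d / x) := by
  have hx0 : 0 < x := by linarith
  set y : ℝ := x ^ (A * (d + 1)) with hy
  have hy1 : 1 ≤ y := one_le_pow₀ hx
  have h1 : b * b ^ d ≤ y := by
    have h2 : b * b ^ d = b ^ (d + 1) := by ring
    rw [h2, hy, pow_mul]
    exact pow_le_pow_left₀ hb hbA _
  have h3 : x ^ 2 * y ^ 2 ≤ t := by
    refine le_trans ?_ ht
    rw [hy, ← pow_mul, ← pow_add]
    refine pow_le_pow_right₀ hx ?_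
    have h4 : A * (d + 1) * 2 = 2 * A * (d + 1) := by ring
    omega
  have ht0 : 0 < t := lt_of_lt_of_le (by positivity) h3
  have h4 : b * b ^ d * Real.sqrt (d * x / t) ≤ y * Real.sqrt (d * x / t) :=
    mul_le_mul_of_nonneg_right h1 (Real.sqrt_nonneg _)
  refine h4.trans ?_
  have h5 : y = Real.sqrt (y ^ 2) := (Real.sqrt_sq (by linarith)).symm
  rw [h5, ← Real.sqrt_mul (by positivity)]
  refine Real.sqrt_le_sqrt ?_
  rw [← mul_div_assoc, div_le_div_iff₀ ht0 hx0]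
  have h6 : (0 : ℝ) ≤ d := Nat.cast_nonneg d
  calc y ^ 2 * (d * x) * x = d * (x ^ 2 * y ^ 2) := by ring
    _ ≤ d * t := mul_le_mul_of_nonneg_left h3 h6

/-- The conditions on `κ = (7 d + 7) log L`. -/
theorem kappa_num {d J : ℕ} {L b C : ℝ} (hd : 2 ≤ d) (hL : 64 ≤ L) (hC : 1 ≤ C)
    (hJL : (J : ℝ) ≤ L) (hb1 : 1 ≤ b) (hbL : b ≤ L) (hb8 : Real.log L ^ 8 ≤ b)
    (hK0 : C * (7 * d + 7) ^ 2 ≤ Real.log L) :
    1 ≤ (7 * d + 7) * Real.log L ∧ C * ((7 * d + 7) * Real.log L) ^ 2 ≤ b ^ d ∧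
      C * ((7 * d + 7) * Real.log L) * Real.log (((J : ℝ) + 1) * L ^ d) ≤
        Real.sqrt (Real.sqrt (b ^ d)) ∧
      (((J : ℝ) + 1) * L ^ d) ^ 6 * b ^ d ≤ Real.exp ((7 * d + 7) * Real.log L) ∧
      C / b ^ d ≤ C / Real.log L ∧
      C * (((J : ℝ) + 1) * L ^ d) ^ 2 * Real.exp (-((7 * d + 7) * Real.log L / 2)) ≤ C / L := by
  set x := Real.log L with hx
  have hL0 : 0 < L := by linarith
  have hd0 : (2 : ℝ) ≤ d := by exact_mod_cast hd
  have h7 : (21 : ℝ) ≤ 7 * d + 7 := by linarith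
  have hx1 : (441 : ℝ) ≤ x := by
    refine le_trans ?_ hK0
    nlinarith
  have hx0 : 0 < x := by linarith
  have hb0 : 0 < b := by linarith
  have hb16 : x ^ 16 ≤ b ^ d := by
    calc x ^ 16 = (x ^ 8) ^ 2 := by ring
      _ ≤ b ^ 2 := pow_le_pow_left₀ (by positivity) hb8 2
      _ ≤ b ^ d := pow_le_pow_right₀ hb1 hd
  have hJ0 : (0 : ℝ) ≤ J := Nat.cast_nonneg J
  have hX1 : L ≤ ((J : ℝ) + 1) * L ^ d := by
    have h1 : L ^ 1 ≤ L ^ d := pow_le_pow_right₀ (by linarith) (by omega)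
    rw [pow_one] at h1
    nlinarith
  have hX2 : ((J : ℝ) + 1) * L ^ d ≤ 2 * L ^ (d + 1) := by
    rw [pow_succ]
    have h1 : (J : ℝ) + 1 ≤ 2 * L := by linarith
    calc ((J : ℝ) + 1) * L ^ d ≤ 2 * L * L ^ d := mul_le_mul_of_nonneg_right h1 (by positivity)
      _ = 2 * (L ^ d * L) := by ring
  have hX0 : 0 < ((J : ℝ) + 1) * L ^ d := by linarith
  set X := ((J : ℝ) + 1) * L ^ d with hX
  have hexp : Real.exp ((7 * d + 7) * x) = L ^ (7 * d + 7) := by
    have h1 : ((7 : ℝ) * d + 7) * x = ((7 * d + 7 : ℕ) : ℝ) * x := by push_cast; ring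
    rw [h1, Real.exp_nat_mul, hx, Real.exp_log hL0]
  have h4 : X ^ 6 * b ^ d ≤ Real.exp ((7 * d + 7) * x) := by
    rw [hexp]
    calc X ^ 6 * b ^ d ≤ (2 * L ^ (d + 1)) ^ 6 * L ^ d :=
          mul_le_mul (pow_le_pow_left₀ hX0.le hX2 6) (pow_le_pow_left₀ hb0.le hbL d)
            (by positivity) (by positivity)
      _ = 64 * L ^ (7 * d + 6) := by ring
      _ ≤ L * L ^ (7 * d + 6) := mul_le_mul_of_nonneg_right hL (by positivity)
      _ = L ^ (7 * d + 7) := by ring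
  have hbd1 : 1 ≤ b ^ d := one_le_pow₀ hb1
  refine ⟨by nlinarith, ?_, ?_, h4, ?_, ?_⟩
  · refine le_trans ?_ hb16
    calc C * ((7 * d + 7) * x) ^ 2 = (C * (7 * d + 7) ^ 2) * x ^ 2 := by ring
      _ ≤ x * x ^ 2 := mul_le_mul_of_nonneg_right hK0 (by positivity)
      _ = x ^ 3 := by ring
      _ ≤ x ^ 16 := pow_le_pow_right₀ (by linarith) (by norm_num)
  · have h5 : Real.log X ≤ (d + 2) * x := by
      have h6 : X ≤ L ^ (d + 2) := by
        refine hX2.trans ?_
        calc 2 * L ^ (d + 1) ≤ L * L ^ (d + 1) :=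
              mul_le_mul_of_nonneg_right (by linarith) (by positivity)
          _ = L ^ (d + 2) := by ring
      have h7 := Real.log_le_log hX0 h6
      rw [Real.log_pow] at h7
      push_cast at h7
      exact h7
    have h6 : x ^ 4 ≤ Real.sqrt (Real.sqrt (b ^ d)) := by
      refine Real.le_sqrt_of_sq_le (Real.le_sqrt_of_sq_le ?_)
      calc ((x ^ 4) ^ 2) ^ 2 = x ^ 16 := by ring
        _ ≤ b ^ d := hb16
    refine le_trans ?_ h6
    have h8 : C * ((7 * d + 7) * x) * Real.log X ≤ C * ((7 * d + 7) * x) * ((d + 2) * x) :=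
      mul_le_mul_of_nonneg_left h5 (by positivity)
    refine h8.trans ?_
    have h9 : ((d : ℝ) + 2) ≤ 7 * d + 7 := by linarith
    calc C * ((7 * d + 7) * x) * ((d + 2) * x) ≤ C * ((7 * d + 7) * x) * ((7 * d + 7) * x) := by
          refine mul_le_mul_of_nonneg_left ?_ (by positivity)
          exact mul_le_mul_of_nonneg_right h9 hx0.le
      _ = (C * (7 * d + 7) ^ 2) * x ^ 2 := by ring
      _ ≤ x * x ^ 2 := mul_le_mul_of_nonneg_right hK0 (by positivity)
      _ = x ^ 3 := by ring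
      _ ≤ x ^ 4 := pow_le_pow_right₀ (by linarith) (by norm_num)
  · refine div_le_div_of_nonneg_left (by linarith) hx0 ?_
    calc x = x ^ 1 := (pow_one x).symm
      _ ≤ x ^ 16 := pow_le_pow_right₀ (by linarith) (by norm_num)
      _ ≤ b ^ d := hb16
  · have h5 : (X ^ 3) ^ 2 ≤ Real.exp ((7 * d + 7) * x) := by
      refine le_trans ?_ h4
      have h6 : (X ^ 3) ^ 2 = X ^ 6 := by ring
      rw [h6]
      nlinarith [pow_pos hX0 6]
    have h6 : X ^ 3 ≤ Real.exp ((7 * d + 7) * x / 2) := by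
      have h7 : Real.exp ((7 * d + 7) * x) = Real.exp ((7 * d + 7) * x / 2) ^ 2 := by
        rw [← Real.exp_nat_mul]
        congr 1
        push_cast
        ring
      rw [h7] at h5
      exact (pow_le_pow_iff_left₀ (by positivity) (Real.exp_pos _).le (by norm_num)).mp h5
    rw [mul_assoc, div_eq_mul_inv]
    refine mul_le_mul_of_nonneg_left ?_ (by linarith)
    rw [Real.exp_neg, ← div_eq_mul_inv, div_le_iff₀ (Real.exp_pos _)]
    have h8 : X ^ 2 * L ≤ Real.exp ((7 * d + 7) * x / 2) := by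
      refine le_trans ?_ h6
      have h9 : X ^ 3 = X ^ 2 * X := by ring
      rw [h9]
      exact mul_le_mul_of_nonneg_left hX1 (by positivity)
    rw [← div_eq_inv_mul, le_div_iff₀ hL0]
    exact h8

end Pool.Agent.Stirring.TN
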