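import Pool.Agent.Lib.MP_6c3d62_pr.Mg.G092

/-!
# Two nodes, part T1: the first hit of a set, removal of a point, and moving a cut
-/

open Finset

set_option linter.unusedSectionVars false

namespace Pool.Agent.Stirring.TN

open Pool.Agent.Stirring

variable {X : Type*} [Fintype X] [DecidableEq X]

/-! ### The sequence of out-points -/

/-- The sequence of the out-points `σ x, σ ω σ x, ...` of the orbit of `x`. -/
def out (ω σ : Equiv.Perm X) (x : X) (m : ℕ) : X := ((σ * ω) ^ m) (σ x)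

theorem out_zero (ω σ : Equiv.Perm X) (x : X) : out ω σ x 0 = σ x := rfl

theorem out_succ (ω σ : Equiv.Perm X) (x : X) (m : ℕ) :
    out ω σ x (m + 1) = σ (ω (out ω σ x m)) := by
  unfold out
  rw [pow_succ']
  rfl

/-- The orbit of `x` under `ω σ`. -/
theorem out_eq (ω σ : Equiv.Perm X) (x : X) (m : ℕ) : out ω σ x m = σ (((ω * σ) ^ m) x) := by
  induction m with
  | zero => rfl
  | succ m ih =>
    rw [out_succ, ih, pow_succ']
    rfl

theorem orb_succ (ω σ : Equiv.Perm X) (x : X) (m : ℕ) :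
    ((ω * σ) ^ (m + 1)) x = ω (out ω σ x m) := by
  rw [out_eq, pow_succ']
  rfl

/-- The first point of `K` in the sequence of the out-points is `k`. -/
def Hit (ω σ : Equiv.Perm X) (x : X) (K : Finset X) (k : X) : Prop :=
  ∃ n, out ω σ x n = k ∧ k ∈ K ∧ ∀ m < n, out ω σ x m ∉ K

theorem Hit.unique {ω σ : Equiv.Perm X} {x : X} {K : Finset X} {k k' : X}
    (h : Hit ω σ x K k) (h' : Hit ω σ x K k') : k = k' := by
  obtain ⟨n, h1, h2, h3⟩ := h
  obtain ⟨n', h1', h2', h3'⟩ := h'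
  rcases lt_trichotomy n n' with hn | hn | hn
  · exact absurd (h1 ▸ h2) (h3' n hn)
  · subst hn
    rw [← h1, ← h1']
  · exact absurd (h1' ▸ h2') (h3 n' hn)

theorem out_swap {ω σ : Equiv.Perm X} {x k k' : X} {n : ℕ}
    (h : ∀ m < n, out ω σ x m ≠ k ∧ out ω σ x m ≠ k') :
    (∀ m < n, out ω (Equiv.swap k k' * σ) x m = out ω σ x m) ∧
      out ω (Equiv.swap k k' * σ) x n = Equiv.swap k k' (out ω σ x n) := by
  induction n with
  | zero => exact ⟨fun m hm => absurd hm (Nat.not_lt_zero m), rfl⟩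
  | succ n ih =>
    obtain ⟨h1, h2⟩ := ih fun m hm => h m (Nat.lt_succ_of_lt hm)
    obtain ⟨h3, h4⟩ := h n (Nat.lt_succ_self n)
    rw [Equiv.swap_apply_of_ne_of_ne h3 h4] at h2
    have h5 : ∀ m < n + 1, out ω (Equiv.swap k k' * σ) x m = out ω σ x m := by
      intro m hm
      rcases Nat.lt_succ_iff_lt_or_eq.mp hm with hm | hm
      · exact h1 m hm
      · rw [hm, h2]
    refine ⟨h5, ?_⟩
    rw [out_succ, h2, out_succ]
    rfl

theorem Hit.swap {ω σ : Equiv.Perm X} {x k k' : X} {K : Finset X} (hk' : k' ∈ K)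
    (h : Hit ω σ x K k) : Hit ω (Equiv.swap k k' * σ) x K k' := by
  obtain ⟨n, h1, h2, h3⟩ := h
  obtain ⟨h4, h5⟩ := out_swap (ω := ω) (σ := σ) (x := x) (k := k) (k' := k') (n := n)
    fun m hm => ⟨fun h => h3 m hm (h ▸ h2), fun h => h3 m hm (h ▸ hk')⟩
  refine ⟨n, ?_, hk', fun m hm => ?_⟩
  · rw [h5, h1, Equiv.swap_apply_left]
  · rw [h4 m hm]
    exact h3 m hm

/-- If a point of `K` is reached, there is a first hit. -/
theorem exists_hit {ω σ : Equiv.Perm X} {x : X} {K : Finset X} {n : ℕ} (h : out ω σ x n ∈ K) :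
    ∃ m ≤ n, out ω σ x m ∈ K ∧ ∀ j < m, out ω σ x j ∉ K := by
  classical
  have hex : ∃ n, out ω σ x n ∈ K := ⟨n, h⟩
  exact ⟨Nat.find hex, Nat.find_min' hex h, Nat.find_spec hex, fun j hj => Nat.find_min hex hj⟩

/-! ### Weights -/

/-- A law on the permutations which is invariant under the transpositions of two points of `K`. -/
def Inv (w : Equiv.Perm X → ℝ) (K : Finset X) : Prop :=
  ∀ k ∈ K, ∀ k' ∈ K, ∀ σ, w (Equiv.swap k k' * σ) = w σ

open Classical in
/-- The probability of an event. -/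
noncomputable def pr (w : Equiv.Perm X → ℝ) (E : Equiv.Perm X → Prop) : ℝ :=
  ∑ σ, if E σ then w σ else 0

theorem pr_mono {w : Equiv.Perm X → ℝ} (hw : ∀ σ, 0 ≤ w σ) {E E' : Equiv.Perm X → Prop}
    (h : ∀ σ, w σ ≠ 0 → E σ → E' σ) : pr w E ≤ pr w E' := by
  classical
  unfold pr
  refine Finset.sum_le_sum fun σ _ => ?_
  by_cases h0 : w σ = 0
  · rw [h0]
    simp
  by_cases h1 : E σ
  · rw [if_pos h1, if_pos (h σ h0 h1)]
  · rw [if_neg h1]
    split_ifs
    · exact hw σ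
    · exact le_rfl

theorem pr_nonneg {w : Equiv.Perm X → ℝ} (hw : ∀ σ, 0 ≤ w σ) (E : Equiv.Perm X → Prop) :
    0 ≤ pr w E := by
  classical
  unfold pr
  refine Finset.sum_nonneg fun σ _ => ?_
  split_ifs
  · exact hw σ
  · exact le_rfl

theorem pr_or_le {w : Equiv.Perm X → ℝ} (hw : ∀ σ, 0 ≤ w σ) (E E' : Equiv.Perm X → Prop) :
    pr w (fun σ => E σ ∨ E' σ) ≤ pr w E + pr w E' := by
  classical
  unfold pr
  rw [← Finset.sum_add_distrib]
  refine Finset.sum_le_sum fun σ _ => ?_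
  by_cases h1 : E σ <;> by_cases h2 : E' σ <;> simp [h1, h2, hw σ]

theorem pr_exists_le {w : Equiv.Perm X → ℝ} (hw : ∀ σ, 0 ≤ w σ) {κ : Type*} (s : Finset κ)
    (E : κ → Equiv.Perm X → Prop) :
    pr w (fun σ => ∃ k ∈ s, E k σ) ≤ ∑ k ∈ s, pr w (E k) := by
  classical
  induction s using Finset.induction_on with
  | empty =>
    rw [Finset.sum_empty]
    unfold pr
    simp
  | insert a s ha ih =>
    rw [Finset.sum_insert ha]
    refine le_trans (pr_mono hw fun σ _ h => ?_) ((pr_or_le hw (E a)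
      (fun σ => ∃ k ∈ s, E k σ)).trans (add_le_add le_rfl ih))
    obtain ⟨k, hk, h⟩ := h
    rcases Finset.mem_insert.mp hk with rfl | hk
    · exact Or.inl h
    · exact Or.inr ⟨k, hk, h⟩

theorem pr_le_one {w : Equiv.Perm X → ℝ} (hw : ∀ σ, 0 ≤ w σ) (h1 : ∑ σ, w σ = 1)
    (E : Equiv.Perm X → Prop) : pr w E ≤ 1 := by
  classical
  rw [← h1]
  unfold pr
  refine Finset.sum_le_sum fun σ _ => ?_
  split_ifs
  · exact le_rfl
  · exact hw σ

/-- All the points of `K` are equally likely to be hit first. -/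
theorem pr_hit_eq {w : Equiv.Perm X → ℝ} {K : Finset X} (hK : Inv w K) (ω : Equiv.Perm X) (x : X)
    {k k' : X} (hk : k ∈ K) (hk' : k' ∈ K) :
    pr w (fun σ => Hit ω σ x K k) = pr w (fun σ => Hit ω σ x K k') := by
  classical
  unfold pr
  rw [← Equiv.sum_comp (Equiv.mulLeft (Equiv.swap k k'))
    (fun σ => if Hit ω σ x K k' then w σ else 0)]
  refine Finset.sum_congr rfl fun σ _ => ?_
  rw [Equiv.coe_mulLeft]
  by_cases h : Hit ω σ x K k
  · rw [if_pos h, if_pos (h.swap hk'), hK k hk k' hk' σ]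
  · rw [if_neg h, if_neg]
    intro h1
    refine h ?_
    have h2 := h1.swap hk
    rwa [Equiv.swap_comm k' k, ← mul_assoc, Equiv.swap_mul_self, one_mul] at h2

/-- The probability to hit `K` first at a given point is at most `1 / |K|`. -/
theorem card_mul_pr_hit_le {w : Equiv.Perm X → ℝ} (hw : ∀ σ, 0 ≤ w σ) (h1 : ∑ σ, w σ = 1)
    {K : Finset X} (hK : Inv w K) (ω : Equiv.Perm X) (x : X) {k : X} (hk : k ∈ K) :
    (K.card : ℝ) * pr w (fun σ => Hit ω σ x K k) ≤ 1 := by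
  classical
  have h2 : (K.card : ℝ) * pr w (fun σ => Hit ω σ x K k) =
      ∑ k' ∈ K, pr w (fun σ => Hit ω σ x K k') := by
    rw [Finset.sum_congr rfl fun k' hk' => pr_hit_eq hK ω x hk' hk, Finset.sum_const, nsmul_eq_mul]
  rw [h2, ← h1]
  unfold pr
  rw [Finset.sum_comm]
  refine Finset.sum_le_sum fun σ _ => ?_
  by_cases h : ∃ k' ∈ K, Hit ω σ x K k'
  · obtain ⟨k', hk', h⟩ := h
    rw [Finset.sum_eq_single_of_mem k' hk' fun k'' _ hne => if_neg fun h' => hne (h'.unique h),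
      if_pos h]
  · rw [Finset.sum_eq_zero fun k' hk' => if_neg fun h' => h ⟨k', hk', h'⟩]
    exact hw σ

/-! ### Removal of a point, and moving a cut -/

/-- The multiplication on the right. -/
theorem sameCycle_mul_swap {x y : X} (σ : Equiv.Perm X) (u v : X) :
    (σ * Equiv.swap x y).SameCycle u v ↔ (Equiv.swap x y * σ⁻¹).SameCycle u v := by
  have h : σ * Equiv.swap x y = (Equiv.swap x y * σ⁻¹)⁻¹ := by
    rw [mul_inv_rev, inv_inv, Equiv.swap_inv]
  rw [h, Equiv.Perm.sameCycle_inv]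

/-- Merging two cycles. -/
theorem sameCycle_merge_right {x y : X} (hxy : x ≠ y) {σ : Equiv.Perm X}
    (h : ¬ σ.SameCycle x y) (u v : X) :
    (σ * Equiv.swap x y).SameCycle u v ↔ σ.SameCycle u v ∨
      (σ.SameCycle u x ∧ σ.SameCycle v y) ∨ (σ.SameCycle u y ∧ σ.SameCycle v x) := by
  rw [sameCycle_mul_swap, sameCycle_merge hxy (fun h' => h (Equiv.Perm.sameCycle_inv.mp h'))]
  simp only [Equiv.Perm.sameCycle_inv]

/-- The permutation without the point `a`. -/
def rem (σ : Equiv.Perm X) (a : X) : Equiv.Perm X := σ * Equiv.swap (σ⁻¹ a) a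

theorem rem_apply (σ : Equiv.Perm X) (a : X) : rem σ a a = a := by
  unfold rem
  rw [Equiv.Perm.mul_apply, Equiv.swap_apply_right]
  exact σ.apply_symm_apply a

/-- Removal of a point does not change the cycles of the other points. -/
theorem rem_sameCycle (σ : Equiv.Perm X) {a u v : X} (hu : u ≠ a) (hv : v ≠ a) :
    (rem σ a).SameCycle u v ↔ σ.SameCycle u v := by
  by_cases h : σ⁻¹ a = a
  · unfold rem
    rw [h, Equiv.swap_self]
    exact Iff.rfl
  have hfix : ∀ w, (rem σ a).SameCycle w a → w = a := by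
    intro w hw
    obtain ⟨n, hn⟩ := hw.symm
    have h1 : ((rem σ a) ^ n) a = a :=
      Equiv.Perm.zpow_apply_eq_self_of_apply_eq_self (rem_apply σ a) n
    rw [← hn, h1]
  have h2 : σ = rem σ a * Equiv.swap (σ⁻¹ a) a := by
    unfold rem
    rw [mul_assoc, Equiv.swap_mul_self, mul_one]
  have h3 := sameCycle_merge_right h (σ := rem σ a) (fun h' => h (hfix _ h')) u v
  rw [← h2] at h3
  rw [h3]
  constructor
  · exact Or.inl
  · rintro (h4 | ⟨-, h4⟩ | ⟨h4, -⟩)
    · exact h4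
    · exact absurd (hfix _ h4) hv
    · exact absurd (hfix _ h4) hu

/-- Moving a cut over one point. -/
theorem move_one (σ : Equiv.Perm X) {p r u v : X} (h1 : p ≠ r) (h2 : σ p ≠ r) (hu : u ≠ σ p)
    (hv : v ≠ σ p) :
    (σ * Equiv.swap p r).SameCycle u v ↔ (σ * Equiv.swap (σ p) r).SameCycle u v := by
  by_cases h0 : σ p = p
  · rw [h0]
  set q := σ p with hq
  have e1 : (σ * Equiv.swap p r)⁻¹ q = r := by
    rw [Equiv.Perm.inv_eq_iff_eq, Equiv.Perm.mul_apply, Equiv.swap_apply_right]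
  have e2 : (σ * Equiv.swap q r)⁻¹ q = p := by
    rw [Equiv.Perm.inv_eq_iff_eq, Equiv.Perm.mul_apply,
      Equiv.swap_apply_of_ne_of_ne (fun h => h0 h.symm) h1]
  have e3 : rem (σ * Equiv.swap p r) q = rem (σ * Equiv.swap q r) q := by
    unfold rem
    rw [e1, e2, mul_assoc, mul_assoc]
    congr 1
    ext a
    simp only [Equiv.Perm.mul_apply]
    by_cases ha : a = p
    · subst ha
      rw [Equiv.swap_apply_of_ne_of_ne h1 (fun h => h0 h.symm), Equiv.swap_apply_left,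
        Equiv.swap_apply_left, Equiv.swap_apply_left]
    by_cases hb : a = q
    · rw [hb, Equiv.swap_apply_right, Equiv.swap_apply_right, Equiv.swap_apply_right,
        Equiv.swap_apply_of_ne_of_ne (fun h => h0 h.symm) h1]
    by_cases hc : a = r
    · subst hc
      rw [Equiv.swap_apply_left, Equiv.swap_apply_of_ne_of_ne h0 h2,
        Equiv.swap_apply_of_ne_of_ne ha hb, Equiv.swap_apply_right]
    · rw [Equiv.swap_apply_of_ne_of_ne hc hb, Equiv.swap_apply_of_ne_of_ne ha hc,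
        Equiv.swap_apply_of_ne_of_ne ha hb, Equiv.swap_apply_of_ne_of_ne hb hc]
  rw [← rem_sameCycle _ hu hv, e3, rem_sameCycle _ hu hv]

/-- Moving a cut along a path. -/
theorem move_path (σ : Equiv.Perm X) {p r u v : X} (n : ℕ) (h1 : ∀ m ≤ n, (σ ^ m) p ≠ r)
    (hu : ∀ m < n, u ≠ (σ ^ (m + 1)) p) (hv : ∀ m < n, v ≠ (σ ^ (m + 1)) p) :
    (σ * Equiv.swap p r).SameCycle u v ↔
      (σ * Equiv.swap ((σ ^ n) p) r).SameCycle u v := by
  induction n with
  | zero => rfl
  | succ n ih =>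
    rw [ih (fun m hm => h1 m (Nat.le_succ_of_le hm)) (fun m hm => hu m (Nat.lt_succ_of_lt hm))
      (fun m hm => hv m (Nat.lt_succ_of_lt hm))]
    have e : (σ ^ (n + 1)) p = σ ((σ ^ n) p) := by
      rw [pow_succ']
      rfl
    rw [move_one σ (h1 n (Nat.le_succ n)) (by rw [← e]; exact h1 (n + 1) le_rfl)
      (by rw [← e]; exact hu n (Nat.lt_succ_self n)) (by rw [← e]; exact hv n (Nat.lt_succ_self n)),
      e]

/-- Moving both cuts. -/
theorem move_both (σ : Equiv.Perm X) {x y u v : X} (n m : ℕ)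
    (h1 : ∀ i ≤ n, ∀ j ≤ m, (σ ^ i) x ≠ (σ ^ j) y)
    (hu : ∀ i < n, u ≠ (σ ^ (i + 1)) x) (hv : ∀ i < n, v ≠ (σ ^ (i + 1)) x)
    (hu' : ∀ j < m, u ≠ (σ ^ (j + 1)) y) (hv' : ∀ j < m, v ≠ (σ ^ (j + 1)) y) :
    (σ * Equiv.swap x y).SameCycle u v ↔
      (σ * Equiv.swap ((σ ^ n) x) ((σ ^ m) y)).SameCycle u v := by
  have e0 : (σ ^ 0) y = y := rfl
  rw [move_path σ n (r := y) (fun i hi => by
    have := h1 i hi 0 (Nat.zero_le _)
    rwa [e0] at this) hu hv, Equiv.swap_comm, move_path σ m (fun j hj => (h1 n le_rfl j hj).symm)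
    hu' hv', Equiv.swap_comm]

end Pool.Agent.Stirring.TN
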